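import Pool.Agent.W600.QM.Plane

/-! Explicit homeomorphisms preserving the Cantor set. -/

set_option autoImplicit false

open Topology unitInterval
open Pool.Agent.H659R3.BigMCG

namespace Pool.Agent.W600.QM

theorem K_third {x : ℝ} (h : x ∈ cantorSet) : x / 3 ∈ cantorSet := by
  rw [cantorSet_eq_union_halves]; exact Or.inl ⟨x, h, rfl⟩

theorem K_two_third {x : ℝ} (h : x ∈ cantorSet) : (2 + x) / 3 ∈ cantorSet := by
  rw [cantorSet_eq_union_halves]; exact Or.inr ⟨x, h, rfl⟩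

theorem K_bd {x : ℝ} (h : x ∈ cantorSet) : 0 ≤ x ∧ x ≤ 1 := cantorSet_subset_unitInterval h

theorem K_low {x : ℝ} (h : x ∈ cantorSet) (hx : x < 2 / 3) : 3 * x ∈ cantorSet ∧ x ≤ 1 / 3 := by
  rw [cantorSet_eq_union_halves] at h
  rcases h with ⟨y, hy, rfl⟩ | ⟨y, hy, rfl⟩
  · have := K_bd hy
    refine ⟨by simpa [mul_div_cancel₀] using hy, ?_⟩
    simp only; linarith
  · have := K_bd hy
    simp only at hx; linarith

theorem K_high {x : ℝ} (h : x ∈ cantorSet) (hx : 1 / 3 < x) :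
    3 * x - 2 ∈ cantorSet ∧ 2 / 3 ≤ x := by
  rw [cantorSet_eq_union_halves] at h
  rcases h with ⟨y, hy, rfl⟩ | ⟨y, hy, rfl⟩
  · have := K_bd hy
    simp only at hx; linarith
  · have := K_bd hy
    refine ⟨?_, ?_⟩
    · have e : 3 * ((2 + y) / 3) - 2 = y := by ring
      simp only [e]; exact hy
    · simp only; linarith

theorem K_symm_pre (n : ℕ) : ∀ x : ℝ, x ∈ preCantorSet n → 1 - x ∈ preCantorSet n := by
  induction n with
  | zero =>
    intro x hx
    simp only [preCantorSet_zero, Set.mem_Icc] at *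
    constructor <;> linarith
  | succ n ih =>
    intro x hx
    rw [preCantorSet_succ] at *
    rcases hx with ⟨y, hy, rfl⟩ | ⟨y, hy, rfl⟩
    · exact Or.inr ⟨1 - y, ih y hy, by simp only; ring⟩
    · exact Or.inl ⟨1 - y, ih y hy, by simp only; ring⟩

theorem K_symm {x : ℝ} (h : x ∈ cantorSet) : 1 - x ∈ cantorSet := by
  unfold cantorSet at *
  rw [Set.mem_iInter] at *
  exact fun n => K_symm_pre n x (h n)

/-- The piecewise linear map `g`. -/
noncomputable def gfun (x : ℝ) : ℝ := min x (max (x / 3) (max (x - 4 / 9) (3 * x - 2)))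

noncomputable def ginv (y : ℝ) : ℝ := max y (min (3 * y) (min (y + 4 / 9) ((y + 2) / 3)))

theorem g_a {x : ℝ} (h : x ≤ 0) : gfun x = x := by
  unfold gfun
  exact min_eq_left (le_max_of_le_left (by linarith))

theorem g_b {x : ℝ} (h : 0 ≤ x) (h' : x ≤ 2 / 3) : gfun x = x / 3 := by
  unfold gfun
  rw [max_eq_left (max_le (by linarith) (by linarith)), min_eq_right (by linarith)]

theorem g_c {x : ℝ} (h : 2 / 3 ≤ x) (h' : x ≤ 7 / 9) : gfun x = x - 4 / 9 := by
  unfold gfun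
  rw [max_eq_left (a := x - 4 / 9) (by linarith), max_eq_right (by linarith),
    min_eq_right (by linarith)]

theorem g_d {x : ℝ} (h : 7 / 9 ≤ x) (h' : x ≤ 1) : gfun x = 3 * x - 2 := by
  unfold gfun
  rw [max_eq_right (a := x - 4 / 9) (by linarith), max_eq_right (by linarith),
    min_eq_right (by linarith)]

theorem g_e {x : ℝ} (h : 1 ≤ x) : gfun x = x := by
  unfold gfun
  exact min_eq_left (le_max_of_le_right (le_max_of_le_right (by linarith)))

theorem i_a {x : ℝ} (h : x ≤ 0) : ginv x = x := by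
  unfold ginv
  exact max_eq_left (min_le_of_left_le (by linarith))

theorem i_b {x : ℝ} (h : 0 ≤ x) (h' : x ≤ 2 / 9) : ginv x = 3 * x := by
  unfold ginv
  rw [min_eq_left (le_min (by linarith) (by linarith)), max_eq_right (by linarith)]

theorem i_c {x : ℝ} (h : 2 / 9 ≤ x) (h' : x ≤ 1 / 3) : ginv x = x + 4 / 9 := by
  unfold ginv
  rw [min_eq_left (a := x + 4 / 9) (by linarith), min_eq_right (by linarith),
    max_eq_right (by linarith)]

theorem i_d {x : ℝ} (h : 1 / 3 ≤ x) (h' : x ≤ 1) : ginv x = (x + 2) / 3 := by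
  unfold ginv
  rw [min_eq_right (a := x + 4 / 9) (by linarith), min_eq_right (by linarith),
    max_eq_right (by linarith)]

theorem i_e {x : ℝ} (h : 1 ≤ x) : ginv x = x := by
  unfold ginv
  exact max_eq_left (min_le_of_right_le (min_le_of_right_le (by linarith)))

theorem g_left (x : ℝ) : ginv (gfun x) = x := by
  rcases le_total x 0 with h | h
  · rw [g_a h, i_a h]
  rcases le_total x (2 / 3) with h1 | h1
  · rw [g_b h h1, i_b (by linarith) (by linarith)]; ring
  rcases le_total x (7 / 9) with h2 | h2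
  · rw [g_c h1 h2, i_c (by linarith) (by linarith)]; ring
  rcases le_total x 1 with h3 | h3
  · rw [g_d h2 h3, i_d (by linarith) (by linarith)]; ring
  · rw [g_e h3, i_e h3]

theorem g_right (x : ℝ) : gfun (ginv x) = x := by
  rcases le_total x 0 with h | h
  · rw [i_a h, g_a h]
  rcases le_total x (2 / 9) with h1 | h1
  · rw [i_b h h1, g_b (by linarith) (by linarith)]; ring
  rcases le_total x (1 / 3) with h2 | h2
  · rw [i_c h1 h2, g_c (by linarith) (by linarith)]; ring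
  rcases le_total x 1 with h3 | h3
  · rw [i_d h2 h3, g_d (by linarith) (by linarith)]; ring
  · rw [i_e h3, g_e h3]

theorem gfun_mono : Monotone gfun := by
  have h1 : Monotone fun x : ℝ => x / 3 := fun a b h => by simp only; linarith
  have h2 : Monotone fun x : ℝ => x - 4 / 9 := fun a b h => by simp only; linarith
  have h3 : Monotone fun x : ℝ => 3 * x - 2 := fun a b h => by simp only; linarith
  exact monotone_id.min (h1.max (h2.max h3))

theorem ginv_mono : Monotone ginv := by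
  have h1 : Monotone fun x : ℝ => 3 * x := fun a b h => by simp only; linarith
  have h2 : Monotone fun x : ℝ => x + 4 / 9 := fun a b h => by simp only; linarith
  have h3 : Monotone fun x : ℝ => (x + 2) / 3 := fun a b h => by simp only; linarith
  exact monotone_id.max (h1.min (h2.min h3))

/-- `g` as an order isomorphism. -/
noncomputable def gIso : ℝ ≃o ℝ where
  toFun := gfun
  invFun := ginv
  left_inv := g_left
  right_inv := g_right
  map_rel_iff' := by
    intro a b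
    constructor
    · intro h
      have := ginv_mono h
      simpa only [Equiv.coe_fn_mk, g_left] using this
    · intro h; exact gfun_mono h

theorem gIso_apply (x : ℝ) : gIso x = gfun x := rfl

theorem g_mem1 {x : ℝ} (h : x ∈ cantorSet) : gfun x ∈ cantorSet := by
  have hb := K_bd h
  rcases le_or_gt (2 / 3) x with h1 | h1
  · obtain ⟨h2, -⟩ := K_high h (by linarith)
    rcases le_or_gt x (7 / 9) with h3 | h3
    · rw [g_c h1 h3]
      obtain ⟨h4, -⟩ := K_low h2 (by linarith)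
      have h5 := K_third (K_two_third h4)
      have e : (2 + 3 * (3 * x - 2)) / 3 / 3 = x - 4 / 9 := by ring
      rwa [e] at h5
    · rw [g_d h3.le hb.2]; exact h2
  · rw [g_b hb.1 h1.le]; exact K_third h

theorem g_mem2 {x : ℝ} (h : x ∈ cantorSet) : ginv x ∈ cantorSet := by
  have hb := K_bd h
  rcases le_or_gt x (1 / 3) with h1 | h1
  · obtain ⟨h2, -⟩ := K_low h (by linarith)
    rcases le_or_gt x (2 / 9) with h3 | h3
    · rw [i_b hb.1 h3]; exact h2
    · rw [i_c h3.le h1]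
      obtain ⟨h4, -⟩ := K_high h2 (by linarith)
      have h5 := K_two_third (K_third h4)
      have e : (2 + (3 * (3 * x) - 2) / 3) / 3 = x + 4 / 9 := by ring
      rwa [e] at h5
  · rw [i_d h1.le hb.2]
    have := K_two_third h
    rwa [add_comm] at this

theorem g_mem (x : ℝ) : gIso x ∈ cantorSet ↔ x ∈ cantorSet := by
  constructor
  · intro h
    have := g_mem2 h
    rwa [gIso_apply, g_left] at this
  · exact g_mem1

/-- The scaled copy `x ↦ 2/3 + g (9 x - 6) / 9` of `g`. -/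
noncomputable def eIso : ℝ ≃o ℝ where
  toFun := fun x => 2 / 3 + gfun (9 * x - 6) / 9
  invFun := fun x => 2 / 3 + ginv (9 * x - 6) / 9
  left_inv := fun x => by
    have e : 9 * (2 / 3 + gfun (9 * x - 6) / 9) - 6 = gfun (9 * x - 6) := by ring
    simp only [e, g_left]; ring
  right_inv := fun x => by
    have e : 9 * (2 / 3 + ginv (9 * x - 6) / 9) - 6 = ginv (9 * x - 6) := by ring
    simp only [e, g_right]; ring
  map_rel_iff' := by
    intro a b
    have key : gfun (9 * a - 6) ≤ gfun (9 * b - 6) ↔ a ≤ b := by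
      have := gIso.map_rel_iff (a := 9 * a - 6) (b := 9 * b - 6)
      rw [show (gfun (9 * a - 6) ≤ gfun (9 * b - 6)) = (gIso (9 * a - 6) ≤ gIso (9 * b - 6)) from rfl,
        this]
      constructor <;> intro h <;> linarith
    simp only [Equiv.coe_fn_mk]
    rw [← key]
    constructor <;> intro h <;> linarith

theorem eIso_apply (x : ℝ) : eIso x = 2 / 3 + gfun (9 * x - 6) / 9 := rfl

theorem e_outside {x : ℝ} (h : x ≤ 2 / 3 ∨ 7 / 9 ≤ x) : eIso x = x := by
  rw [eIso_apply]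
  rcases h with h | h
  · rw [g_a (by linarith)]; ring
  · rw [g_e (by linarith)]; ring

/-- the block of the Cantor set in the strip -/
theorem block {x : ℝ} (h1 : 11 / 18 ≤ x) (h2 : x ≤ 15 / 18) (h : x ∈ cantorSet) :
    9 * x - 6 ∈ cantorSet := by
  obtain ⟨h3, -⟩ := K_high h (by linarith)
  obtain ⟨h4, -⟩ := K_low h3 (by linarith)
  have e : 3 * (3 * x - 2) = 9 * x - 6 := by ring
  rwa [e] at h4

theorem block_inv {x : ℝ} (h : 9 * x - 6 ∈ cantorSet) : x ∈ cantorSet := by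
  have := K_two_third (K_third h)
  have e : (2 + (9 * x - 6) / 3) / 3 = x := by ring
  rwa [e] at this

theorem block_bd {x : ℝ} (h1 : 11 / 18 ≤ x) (h2 : x ≤ 15 / 18) (h : x ∈ cantorSet) :
    2 / 3 ≤ x ∧ x ≤ 7 / 9 := by
  have := K_bd (block h1 h2 h)
  constructor <;> linarith [this.1, this.2]

theorem e_mem (x : ℝ) : eIso x ∈ cantorSet ↔ x ∈ cantorSet := by
  rcases le_total x (2 / 3) with h | h
  · rw [e_outside (Or.inl h)]
  rcases le_total (7 / 9) x with h1 | h1
  · rw [e_outside (Or.inr h1)]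
  have hx : 2 / 3 ≤ eIso x ∧ eIso x ≤ 7 / 9 := by
    have a1 := eIso.monotone h
    have a2 := eIso.monotone h1
    rw [e_outside (Or.inl le_rfl)] at a1
    rw [e_outside (x := 7 / 9) (Or.inr le_rfl)] at a2
    exact ⟨a1, a2⟩
  have e : 9 * eIso x - 6 = gfun (9 * x - 6) := by rw [eIso_apply]; ring
  constructor
  · intro h2
    have h3 := block (by linarith [hx.1]) (by linarith [hx.2]) h2
    rw [e] at h3
    exact block_inv ((g_mem _).1 h3)
  · intro h2
    have h3 := block (by linarith) (by linarith) h2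
    apply block_inv
    rw [e]
    exact g_mem1 h3

/-! ### The four generators -/

/-- the shift `h` -/
noncomputable def Ph : PP := ⟨lineHomeo gIso, lineHomeo_mem gIso g_mem⟩

/-- the scaled copy of the shift -/
noncomputable def Pf : PP := ⟨lineHomeo eIso, lineHomeo_mem eIso e_mem⟩

/-- the first half twist -/
noncomputable def Ps : PP := ⟨twHomeo (13 / 18) (1 / 18), twHomeo_mem (by norm_num) (by
  intro x hx h
  rw [abs_le] at h
  have h1 := block (by linarith [h.1]) (by linarith [h.2]) hx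
  have h2 := K_bd h1
  refine ⟨abs_le.2 ⟨by linarith [h2.1], by linarith [h2.2]⟩, ?_⟩
  apply block_inv
  have h3 := K_symm h1
  have e : 1 - (9 * x - 6) = 9 * (2 * (13 / 18) - x) - 6 := by ring
  rwa [e] at h3)⟩

/-- the second half twist -/
noncomputable def Pt : PP := ⟨twHomeo (41 / 54) (1 / 54), twHomeo_mem (by norm_num) (by
  intro x hx h
  rw [abs_le] at h
  have h1 := block (by linarith [h.1]) (by linarith [h.2]) hx
  obtain ⟨h2, -⟩ := K_high h1 (by linarith [h.1])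
  have h4 := K_bd h2
  refine ⟨abs_le.2 ⟨by linarith [h4.1], by linarith [h4.2]⟩, ?_⟩
  apply block_inv
  have h3 := K_two_third (K_symm h2)
  have e : (2 + (1 - (3 * (9 * x - 6) - 2))) / 3 = 9 * (2 * (41 / 54) - x) - 6 := by ring
  rwa [e] at h3)⟩

/-- The strip. -/
def strip : Set ℂ := {z | 11 / 18 ≤ z.re ∧ z.re ≤ 15 / 18}

/-- The homeomorphisms in `PP` supported in a set. -/
def supp (A : Set ℂ) : Subgroup PP where
  carrier := {φ | ∀ z, z ∉ A → (φ : ℂ ≃ₜ ℂ) z = z}
  one_mem' := fun _ _ => rfl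
  mul_mem' := by
    intro a b ha hb z hz
    show (a : ℂ ≃ₜ ℂ) ((b : ℂ ≃ₜ ℂ) z) = z
    rw [hb z hz, ha z hz]
  inv_mem' := by
    intro a ha z hz
    show (a : ℂ ≃ₜ ℂ).symm z = z
    rw [Homeomorph.symm_apply_eq, ha z hz]

theorem supp_mem_iff {A : Set ℂ} {φ : PP} (h : φ ∈ supp A) (z : ℂ) :
    (φ : ℂ ≃ₜ ℂ) z ∈ A ↔ z ∈ A := by
  by_cases hz : z ∈ A
  · refine ⟨fun _ => hz, fun _ => ?_⟩
    by_contra hcon
    have := h _ hcon
    have h2 := (φ : ℂ ≃ₜ ℂ).injective this
    rw [h2] at hcon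
    exact hcon hz
  · rw [h z hz]

theorem supp_commute {A B : Set ℂ} (hAB : Disjoint A B) {φ ψ : PP} (hφ : φ ∈ supp A)
    (hψ : ψ ∈ supp B) : Commute φ ψ := by
  apply Subtype.ext
  ext z
  show (φ : ℂ ≃ₜ ℂ) ((ψ : ℂ ≃ₜ ℂ) z) = (ψ : ℂ ≃ₜ ℂ) ((φ : ℂ ≃ₜ ℂ) z)
  by_cases hA : z ∈ A
  · have hB : z ∉ B := Set.disjoint_left.1 hAB hA
    have hA' : (φ : ℂ ≃ₜ ℂ) z ∉ B := Set.disjoint_left.1 hAB ((supp_mem_iff hφ z).2 hA)
    rw [hψ z hB, hψ _ hA']
  · by_cases hB : z ∈ B
    · have hB' : (ψ : ℂ ≃ₜ ℂ) z ∉ A := Set.disjoint_right.1 hAB ((supp_mem_iff hψ z).2 hB)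
      rw [hφ z hA, hφ _ hB']
    · rw [hψ z hB, hφ z hA, hψ z hB]

theorem supp_conj {A : Set ℂ} {φ : PP} (hφ : φ ∈ supp A) (ψ : PP) :
    ψ * φ * ψ⁻¹ ∈ supp {z | ((ψ⁻¹ : PP) : ℂ ≃ₜ ℂ) z ∈ A} := by
  intro z hz
  show (ψ : ℂ ≃ₜ ℂ) ((φ : ℂ ≃ₜ ℂ) (((ψ⁻¹ : PP) : ℂ ≃ₜ ℂ) z)) = z
  rw [hφ _ hz]
  exact (ψ : ℂ ≃ₜ ℂ).apply_symm_apply z

theorem Pf_supp : Pf ∈ supp strip := by
  intro z hz
  apply Complex.ext
  · show eIso z.re = z.re
    apply e_outside
    by_contra hcon
    push Not at hcon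
    exact hz ⟨by linarith [hcon.1], by linarith [hcon.2]⟩
  · rfl

theorem abs_re_le (z : ℂ) (c : ℝ) : |z.re - c| ≤ ‖z - c‖ := by
  have := Complex.abs_re_le_norm (z - c)
  simpa using this

theorem Ps_supp : Ps ∈ supp strip := by
  intro z hz
  show tw (13 / 18) (1 / 18) 1 z = z
  apply tw_outer (by norm_num)
  by_contra hcon
  push Not at hcon
  have h1 := (abs_re_le z (13 / 18)).trans_lt hcon
  rw [abs_lt] at h1
  exact hz ⟨by linarith [h1.1], by linarith [h1.2]⟩

theorem Pt_supp : Pt ∈ supp strip := by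
  intro z hz
  show tw (41 / 54) (1 / 54) 1 z = z
  apply tw_outer (by norm_num)
  by_contra hcon
  push Not at hcon
  have h1 := (abs_re_le z (41 / 54)).trans_lt hcon
  rw [abs_lt] at h1
  exact hz ⟨by linarith [h1.1], by linarith [h1.2]⟩

/-- The group generated by the three homeomorphisms supported in the strip. -/
noncomputable def FF : Subgroup PP := Subgroup.closure {Pf, Ps, Pt}

theorem FF_supp : FF ≤ supp strip := by
  unfold FF
  rw [Subgroup.closure_le]
  rintro φ (rfl | rfl | rfl)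
  · exact Pf_supp
  · exact Ps_supp
  · exact Pt_supp

theorem ginv_ge (x : ℝ) : x ≤ ginv x := le_max_left _ _

theorem Ph_inv_pow (n : ℕ) (z : ℂ) (hz : z ∈ strip) :
    47 / 54 ≤ (((((Ph ^ (n + 1))⁻¹ : PP)) : ℂ ≃ₜ ℂ) z).re := by
  induction n with
  | zero =>
    rw [zero_add, pow_one]
    show 47 / 54 ≤ ginv z.re
    have h1 := ginv_mono hz.1
    rw [i_d (by norm_num) (by norm_num)] at h1
    linarith
  | succ n ih =>
    have h1 : (((((Ph ^ (n + 1 + 1))⁻¹ : PP)) : ℂ ≃ₜ ℂ) z).re =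
        ginv (((((Ph ^ (n + 1))⁻¹ : PP)) : ℂ ≃ₜ ℂ) z).re := by
      have : ((Ph ^ (n + 1 + 1))⁻¹ : PP) = Ph⁻¹ * (Ph ^ (n + 1))⁻¹ := by
        rw [pow_succ, mul_inv_rev]
      rw [this]
      rfl
    rw [h1]
    exact ih.trans (ginv_ge _)

theorem FF_commute (n : ℕ) (hn : 0 < n) (a b : PP) (ha : a ∈ FF) (hb : b ∈ FF) :
    Commute a (Ph ^ n * b * (Ph ^ n)⁻¹) := by
  obtain ⟨k, rfl⟩ : ∃ k, n = k + 1 := ⟨n - 1, by omega⟩
  refine supp_commute ?_ (FF_supp ha) (supp_conj (FF_supp hb) (Ph ^ (k + 1)))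
  rw [Set.disjoint_left]
  intro z hz hz'
  have h1 := Ph_inv_pow k z hz
  have h2 : (((((Ph ^ (k + 1))⁻¹ : PP)) : ℂ ≃ₜ ℂ) z).re ≤ 15 / 18 := hz'.2
  linarith

/-! ### The action on the block -/

/-- The points of the Cantor set in the strip. -/
def Om : Type := {z : ℂ // z ∈ CC ∧ z ∈ strip}

noncomputable instance : MulAction FF Om where
  smul := fun φ z => ⟨((φ : PP) : ℂ ≃ₜ ℂ) z.1, ((φ : PP).2.1 z.1).2 z.2.1,
    (supp_mem_iff (FF_supp φ.2) z.1).2 z.2.2⟩
  one_smul := fun _ => rfl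
  mul_smul := fun _ _ _ => rfl

theorem smul_val (φ : FF) (z : Om) : (φ • z).1 = ((φ : PP) : ℂ ≃ₜ ℂ) z.1 := rfl

theorem Om_bd (z : Om) : 2 / 3 ≤ z.1.re ∧ z.1.re ≤ 7 / 9 :=
  block_bd z.2.2.1 z.2.2.2 z.2.1.2

theorem Om_blk (z : Om) : 9 * z.1.re - 6 ∈ cantorSet :=
  block z.2.2.1 z.2.2.2 z.2.1.2

theorem Om_real (z : Om) : ((z.1.re : ℝ) : ℂ) = z.1 :=
  Complex.ext (by simp) (by simp [z.2.1.1])

noncomputable def Ff : FF := ⟨Pf, Subgroup.subset_closure (by simp)⟩
noncomputable def Fs : FF := ⟨Ps, Subgroup.subset_closure (by simp)⟩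
noncomputable def Ft : FF := ⟨Pt, Subgroup.subset_closure (by simp)⟩

def sL : Set Om := {z | z.1.re < 13 / 18}
def sRL : Set Om := {z | 13 / 18 ≤ z.1.re ∧ z.1.re < 41 / 54}
def sRR : Set Om := {z | 41 / 54 ≤ z.1.re}

theorem half_not_mem : (1 / 2 : ℝ) ∉ cantorSet := by
  intro h
  have := (K_low h (by norm_num)).2
  norm_num at this

theorem Om_ne1 (z : Om) : z.1.re ≠ 13 / 18 := by
  intro h
  have h1 := Om_blk z
  rw [h] at h1
  norm_num at h1
  exact half_not_mem (by norm_num; exact h1)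

theorem Om_ne2 (z : Om) : z.1.re ≠ 41 / 54 := by
  intro h
  have h1 := Om_blk z
  rw [h] at h1
  have h2 := (K_high h1 (by norm_num)).1
  norm_num at h2
  exact half_not_mem (by norm_num; exact h2)

theorem act_f (z : Om) : Ff • z ∈ sL ↔ z ∈ sL ∪ sRL := by
  have h1 : (Ff • z).1.re = eIso z.1.re := rfl
  have h2 : eIso (41 / 54) = 13 / 18 := by
    rw [eIso_apply, g_d (by norm_num) (by norm_num)]; norm_num
  show (Ff • z).1.re < 13 / 18 ↔ (z.1.re < 13 / 18 ∨ (13 / 18 ≤ z.1.re ∧ z.1.re < 41 / 54))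
  rw [h1, ← h2, eIso.lt_iff_lt, h2]
  constructor
  · intro h
    rcases lt_or_ge z.1.re (13 / 18) with h3 | h3
    · exact Or.inl h3
    · exact Or.inr ⟨h3, h⟩
  · rintro (h | h)
    · linarith
    · exact h.2

theorem act_s (z : Om) : Fs • z ∈ sL ↔ z ∈ sRL ∪ sRR := by
  have hb := Om_bd z
  have h1 : (Fs • z).1.re = 13 / 9 - z.1.re := by
    have h2 : (Fs • z).1 = tw (13 / 18) (1 / 18) 1 z.1 := rfl
    rw [h2, ← Om_real z]
    have h3 := tw_inner (c := 13 / 18) (r := 1 / 18) (by norm_num) (Or.inl rfl) (x := z.1.re)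
      (abs_le.2 ⟨by linarith [hb.1], by linarith [hb.2]⟩)
    rw [h3, Complex.ofReal_re, Complex.ofReal_re]
    ring
  have hne := Om_ne1 z
  show (Fs • z).1.re < 13 / 18 ↔ ((13 / 18 ≤ z.1.re ∧ z.1.re < 41 / 54) ∨ 41 / 54 ≤ z.1.re)
  rw [h1]
  constructor
  · intro h
    rcases lt_or_ge z.1.re (41 / 54) with h3 | h3
    · exact Or.inl ⟨by linarith, h3⟩
    · exact Or.inr h3
  · rintro (h | h)
    · have := lt_of_le_of_ne h.1 (Ne.symm hne)
      linarith
    · linarith

theorem act_t (z : Om) : Ft • z ∈ sRL ↔ z ∈ sRR := by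
  have hb := Om_bd z
  have h2 : (Ft • z).1 = tw (41 / 54) (1 / 54) 1 z.1 := rfl
  show (13 / 18 ≤ (Ft • z).1.re ∧ (Ft • z).1.re < 41 / 54) ↔ 41 / 54 ≤ z.1.re
  rw [h2, ← Om_real z, Complex.ofReal_re]
  rcases lt_or_ge (9 * z.1.re - 6) (2 / 3) with h | h
  · -- left block: fixed
    have h3 := (K_low (Om_blk z) h).2
    rw [tw_outer (by norm_num) 1, Complex.ofReal_re]
    · constructor
      · rintro ⟨h4, h5⟩; linarith
      · intro h4; linarith
    · rw [← Complex.ofReal_sub, Complex.norm_real, Real.norm_eq_abs, le_abs]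
      right; linarith
  · rw [tw_inner (c := 41 / 54) (r := 1 / 54) (by norm_num) (Or.inl rfl) (x := z.1.re)
      (abs_le.2 ⟨by linarith, by linarith [hb.2]⟩), Complex.ofReal_re]
    have hne := Om_ne2 z
    constructor
    · rintro ⟨h4, h5⟩; linarith
    · intro h4
      have := lt_of_le_of_ne h4 (Ne.symm hne)
      constructor <;> linarith

theorem cover_Om : sL ∪ sRL ∪ sRR = Set.univ := by
  ext z
  simp only [Set.mem_union, Set.mem_univ, iff_true]
  rcases lt_or_ge z.1.re (13 / 18) with h | h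
  · exact Or.inl (Or.inl h)
  rcases lt_or_ge z.1.re (41 / 54) with h1 | h1
  · exact Or.inl (Or.inr ⟨h, h1⟩)
  · exact Or.inr h1

theorem disj1 : Disjoint sL sRL := by
  rw [Set.disjoint_left]
  intro z h1 h2
  have a : z.1.re < 13 / 18 := h1
  have b : 13 / 18 ≤ z.1.re := h2.1
  linarith

theorem disj2 : Disjoint (sL ∪ sRL) sRR := by
  rw [Set.disjoint_left]
  rintro z (h1 | h1) h2
  · have a : z.1.re < 13 / 18 := h1
    have b : 41 / 54 ≤ z.1.re := h2
    linarith
  · have a : z.1.re < 41 / 54 := h1.2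
    have b : 41 / 54 ≤ z.1.re := h2
    linarith

end Pool.Agent.W600.QM
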