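import Mathlib

/-! Homogeneous quasimorphisms, amenability, and groups generated by a subgroup `F` and an element
`t` all of whose positive powers conjugate `F` into a subgroup commuting with `F`. -/

set_option autoImplicit false

namespace Pool.Agent.W600.QM

/-- `φ` is a homogeneous quasimorphism on the group `G`: it has bounded defect
`φ (g h) - φ g - φ h` and `φ (g ^ n) = n φ g` for all integers `n`. -/
def IsHomogQM (G : Type) [Group G] (φ : G → ℝ) : Prop :=
  (∃ D : ℝ, ∀ g h : G, |φ (g * h) - φ g - φ h| ≤ D) ∧ ∀ (g : G) (n : ℤ), φ (g ^ n) = n * φ g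

theorem IsHomogQM.zero {G : Type} [Group G] : IsHomogQM G 0 :=
  ⟨⟨0, fun _ _ => by simp⟩, fun _ _ => by simp⟩

theorem IsHomogQM.add {G : Type} [Group G] {φ ψ : G → ℝ} (h₁ : IsHomogQM G φ)
    (h₂ : IsHomogQM G ψ) : IsHomogQM G (φ + ψ) := by
  obtain ⟨⟨D, hD⟩, h1⟩ := h₁
  obtain ⟨⟨E, hE⟩, h2⟩ := h₂
  refine ⟨⟨D + E, fun g h => ?_⟩, fun g n => ?_⟩
  · have h3 : (φ + ψ) (g * h) - (φ + ψ) g - (φ + ψ) h =
        (φ (g * h) - φ g - φ h) + (ψ (g * h) - ψ g - ψ h) := by
      simp only [Pi.add_apply]; ring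
    rw [h3]
    exact (abs_add_le _ _).trans (add_le_add (hD g h) (hE g h))
  · simp only [Pi.add_apply, h1 g n, h2 g n]; ring

theorem IsHomogQM.smul {G : Type} [Group G] (c : ℝ) {φ : G → ℝ} (h₁ : IsHomogQM G φ) :
    IsHomogQM G (c • φ) := by
  obtain ⟨⟨D, hD⟩, h1⟩ := h₁
  refine ⟨⟨|c| * D, fun g h => ?_⟩, fun g n => ?_⟩
  · have h3 : (c • φ) (g * h) - (c • φ) g - (c • φ) h = c * (φ (g * h) - φ g - φ h) := by
      simp only [Pi.smul_apply, smul_eq_mul]; ring
    rw [h3, abs_mul]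
    exact mul_le_mul_of_nonneg_left (hD g h) (abs_nonneg c)
  · simp only [Pi.smul_apply, smul_eq_mul, h1 g n]; ring

/-- The real vector space `Q(G)` of homogeneous quasimorphisms on the group `G`. -/
def Q (G : Type) [Group G] : Submodule ℝ (G → ℝ) where
  carrier := {φ | IsHomogQM G φ}
  zero_mem' := IsHomogQM.zero
  add_mem' := IsHomogQM.add
  smul_mem' := fun c _ h => IsHomogQM.smul c h

theorem homFun_add {G : Type} [Group G] {φ ψ : G → ℝ} (h1 : ∀ g h : G, φ (g * h) = φ g + φ h)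
    (h2 : ∀ g h : G, ψ (g * h) = ψ g + ψ h) (g h : G) :
    (φ + ψ) (g * h) = (φ + ψ) g + (φ + ψ) h := by
  simp only [Pi.add_apply]
  rw [h1, h2]; ring

theorem homFun_smul {G : Type} [Group G] (c : ℝ) {φ : G → ℝ}
    (h1 : ∀ g h : G, φ (g * h) = φ g + φ h) (g h : G) :
    (c • φ) (g * h) = (c • φ) g + (c • φ) h := by
  simp only [Pi.smul_apply, smul_eq_mul]
  rw [h1]; ring

/-- The real vector space `Hom(G, ℝ)` of homomorphisms from `G` to the additive group of the
reals. -/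
def HomFun (G : Type) [Group G] : Submodule ℝ (G → ℝ) where
  carrier := {φ | ∀ g h : G, φ (g * h) = φ g + φ h}
  zero_mem' := fun _ _ => (add_zero (0 : ℝ)).symm
  add_mem' := fun h1 h2 => homFun_add h1 h2
  smul_mem' := fun c _ h => homFun_smul c h

/-- The quotient vector space `Q(G) / Hom(G, ℝ)` (more precisely, the quotient of `Q(G)` by its
intersection with `Hom(G, ℝ)`, which is all of `Hom(G, ℝ)`). -/
abbrev QTilde (G : Type) [Group G] : Type := Q G ⧸ (HomFun G).submoduleOf (Q G)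

/-- The dimension of `Q(G) / Hom(G, ℝ)` over the reals. -/
noncomputable def dimQTilde (G : Type) [Group G] : Cardinal := Module.rank ℝ (QTilde G)

/-- Sanity check: homomorphisms to `ℝ` are homogeneous quasimorphisms. -/
theorem homFun_le (G : Type) [Group G] : HomFun G ≤ Q G := by
  intro φ hφ
  have h1 : ∀ g h : G, φ (g * h) = φ g + φ h := hφ
  refine ⟨⟨0, fun g h => by rw [h1]; simp⟩, fun g n => ?_⟩
  let ψ : G →* Multiplicative ℝ := ⟨⟨fun g => Multiplicative.ofAdd (φ g), by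
    have := h1 1 1
    rw [mul_one] at this
    have h0 : φ 1 = 0 := by linarith
    rw [h0]; rfl⟩, fun a b => congrArg Multiplicative.ofAdd (h1 a b)⟩
  have h2 : ψ (g ^ n) = ψ g ^ n := map_zpow ψ g n
  have h3 : φ (g ^ n) = n • φ g := h2
  rw [h3, zsmul_eq_mul]

/-- The (discrete) group `G` is amenable: it carries a finitely additive probability measure,
defined on all subsets, that is invariant under left translations. -/
def IsAmenable (G : Type) [Group G] : Prop :=
  ∃ m : Set G → ℝ, (∀ A, 0 ≤ m A) ∧ m Set.univ = 1 ∧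
    (∀ A B, Disjoint A B → m (A ∪ B) = m A + m B) ∧
    ∀ (g : G) (A : Set G), m ((fun x => g * x) '' A) = m A

section

variable {G : Type} [Group G]

/-- If `|n * a| ≤ D` for all natural numbers `n`, then `a = 0`. -/
theorem eq_zero_of_bound {a D : ℝ} (h : ∀ n : ℕ, |(n : ℝ) * a| ≤ D) : a = 0 := by
  by_contra ha
  have ha' : 0 < |a| := abs_pos.2 ha
  obtain ⟨n, hn⟩ := exists_nat_gt (D / |a|)
  have h1 := h n
  rw [abs_mul, Nat.abs_cast] at h1
  rw [div_lt_iff₀ ha'] at hn
  linarith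

variable {q : G → ℝ} {D : ℝ}

theorem qm_nat (hq : ∀ (g : G) (n : ℤ), q (g ^ n) = n * q g) (g : G) (n : ℕ) :
    q (g ^ n) = n * q g := by
  have := hq g n
  simpa using this

theorem qm_one (hq : ∀ (g : G) (n : ℤ), q (g ^ n) = n * q g) : q 1 = 0 := by
  have := hq 1 0
  simpa using this

theorem qm_inv (hq : ∀ (g : G) (n : ℤ), q (g ^ n) = n * q g) (g : G) : q g⁻¹ = - q g := by
  have := hq g (-1)
  simpa using this

/-- additivity on commuting elements -/
theorem qm_comm (hD : ∀ g h : G, |q (g * h) - q g - q h| ≤ D)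
    (hq : ∀ (g : G) (n : ℤ), q (g ^ n) = n * q g) {x y : G} (h : Commute x y) :
    q (x * y) = q x + q y := by
  have key : q (x * y) - q x - q y = 0 := by
    apply eq_zero_of_bound (D := D)
    intro n
    have h1 := hD (x ^ n) (y ^ n)
    rw [← h.mul_pow, qm_nat hq, qm_nat hq, qm_nat hq] at h1
    have h2 : (n : ℝ) * (q (x * y) - q x - q y) = n * q (x * y) - n * q x - n * q y := by ring
    rw [h2]; exact h1
  linarith

/-- conjugation invariance -/
theorem qm_conj (hD : ∀ g h : G, |q (g * h) - q g - q h| ≤ D)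
    (hq : ∀ (g : G) (n : ℤ), q (g ^ n) = n * q g) (x y : G) :
    q (y * x * y⁻¹) = q x := by
  have key : q (y * x * y⁻¹) - q x = 0 := by
    apply eq_zero_of_bound (D := 2 * D)
    intro n
    have h1 := hD (y * x ^ n) y⁻¹
    have h2 := hD y (x ^ n)
    have h3 : y * x ^ n * y⁻¹ = (y * x * y⁻¹) ^ n := conj_pow.symm
    rw [h3, qm_nat hq, qm_inv hq] at h1
    rw [qm_nat hq] at h2
    rw [abs_le] at *
    constructor <;> linarith [h1.1, h1.2, h2.1, h2.2]
  linarith

theorem commute_conj {a b : G} (h : Commute a b) (c : G) :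
    Commute (c * a * c⁻¹) (c * b * c⁻¹) := by
  show c * a * c⁻¹ * (c * b * c⁻¹) = c * b * c⁻¹ * (c * a * c⁻¹)
  have := h.eq
  calc c * a * c⁻¹ * (c * b * c⁻¹) = c * (a * b) * c⁻¹ := by group
    _ = c * (b * a) * c⁻¹ := by rw [this]
    _ = c * b * c⁻¹ * (c * a * c⁻¹) := by group

/-- The union of the conjugates of `F` under `t ^ k`, `|k| ≤ m`. -/
def Bm (F : Subgroup G) (t : G) (m : ℕ) : Subgroup G :=
  Subgroup.closure {z | ∃ k : ℤ, |k| ≤ m ∧ ∃ f ∈ F, z = t ^ k * f * t ^ (-k)}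

theorem Bm_mono (F : Subgroup G) (t : G) {m n : ℕ} (h : m ≤ n) : Bm F t m ≤ Bm F t n := by
  apply Subgroup.closure_mono
  rintro z ⟨k, hk, f, hf, rfl⟩
  exact ⟨k, hk.trans (by exact_mod_cast h), f, hf, rfl⟩

theorem F_le_Bm (F : Subgroup G) (t : G) (m : ℕ) : F ≤ Bm F t m := by
  intro f hf
  apply Subgroup.subset_closure
  exact ⟨0, by simp, f, hf, by simp⟩

theorem Bm_conj (F : Subgroup G) (t : G) (m : ℕ) (j : ℤ) {x : G} (hx : x ∈ Bm F t m) :
    t ^ j * x * t ^ (-j) ∈ Bm F t (m + j.natAbs) := by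
  unfold Bm at hx
  induction hx using Subgroup.closure_induction with
  | mem z hz =>
    obtain ⟨k, hk, f, hf, rfl⟩ := hz
    apply Subgroup.subset_closure
    refine ⟨j + k, ?_, f, hf, ?_⟩
    · have := abs_add_le j k
      have h2 : ((m + j.natAbs : ℕ) : ℤ) = m + |j| := by push_cast; rfl
      rw [h2]
      omega
    · rw [zpow_add, neg_add, zpow_add]
      group
  | one => simp
  | mul a b _ _ ha hb =>
    have : t ^ j * (a * b) * t ^ (-j) = (t ^ j * a * t ^ (-j)) * (t ^ j * b * t ^ (-j)) := by group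
    rw [this]
    exact Subgroup.mul_mem _ ha hb
  | inv a _ ha =>
    have : t ^ j * a⁻¹ * t ^ (-j) = (t ^ j * a * t ^ (-j))⁻¹ := by group
    rw [this]
    exact Subgroup.inv_mem _ ha

/-- conjugates of `Bm` by large powers of `t` commute with `Bm` -/
theorem Bm_commute (F : Subgroup G) (t : G)
    (hF : ∀ n : ℕ, 0 < n → ∀ a ∈ F, ∀ b ∈ F, Commute a (t ^ n * b * (t ^ n)⁻¹))
    (m : ℕ) (j : ℤ) (hj : 2 * m < j.natAbs) {x y : G} (hx : x ∈ Bm F t m) (hy : y ∈ Bm F t m) :
    Commute x (t ^ j * y * t ^ (-j)) := by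
  -- first for conjugates of elements of `F` by integers
  have hZ : ∀ n : ℤ, n ≠ 0 → ∀ a ∈ F, ∀ b ∈ F, Commute a (t ^ n * b * t ^ (-n)) := by
    intro n hn a ha b hb
    rcases lt_or_gt_of_ne hn with h | h
    · obtain ⟨k, hk⟩ := Int.eq_ofNat_of_zero_le (show 0 ≤ -n by omega)
      have hk0 : 0 < k := by omega
      have h1 := hF k hk0 b hb a ha
      have h2 : n = -(k : ℤ) := by omega
      subst h2
      rw [neg_neg, zpow_neg, zpow_natCast]
      have h3 : Commute ((t ^ k)⁻¹ * b * t ^ k) ((t ^ k)⁻¹ * (t ^ k * a * (t ^ k)⁻¹) * t ^ k) := by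
        have := commute_conj h1 (t ^ k)⁻¹
        rwa [inv_inv] at this
      have h4 : (t ^ k)⁻¹ * (t ^ k * a * (t ^ k)⁻¹) * t ^ k = a := by group
      rw [h4] at h3
      exact h3.symm
    · obtain ⟨k, hk⟩ := Int.eq_ofNat_of_zero_le (show 0 ≤ n by omega)
      have hk0 : 0 < k := by omega
      have h1 := hF k hk0 a ha b hb
      subst hk
      rw [zpow_neg, zpow_natCast]
      exact h1
  unfold Bm at hx
  induction hx using Subgroup.closure_induction with
  | mem z hz =>
    obtain ⟨k, hk, f, hf, rfl⟩ := hz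
    unfold Bm at hy
    induction hy using Subgroup.closure_induction with
    | mem w hw =>
      obtain ⟨l, hl, g, hg, rfl⟩ := hw
      have h1 := hZ (j + l - k) (by
        rw [abs_le] at hk hl
        omega) f hf g hg
      have h2 := commute_conj h1 (t ^ k)
      have h3 : t ^ k * f * (t ^ k)⁻¹ = t ^ k * f * t ^ (-k) := by rw [zpow_neg]
      have h4 : t ^ k * (t ^ (j + l - k) * g * t ^ (-(j + l - k))) * (t ^ k)⁻¹ =
          t ^ j * (t ^ l * g * t ^ (-l)) * t ^ (-j) := by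
        have e1 : t ^ (j + l - k) = t ^ (-k) * t ^ j * t ^ l := by
          rw [← zpow_add, ← zpow_add]; congr 1; ring
        have e2 : t ^ (-(j + l - k)) = t ^ (-l) * t ^ (-j) * t ^ k := by
          rw [← zpow_add, ← zpow_add]; congr 1; ring
        rw [e1, e2]
        group
      rw [h3, h4] at h2
      exact h2
    | one => simp
    | mul a b _ _ ha hb =>
      have : t ^ j * (a * b) * t ^ (-j) = (t ^ j * a * t ^ (-j)) * (t ^ j * b * t ^ (-j)) := by group
      rw [this]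
      exact ha.mul_right hb
    | inv a _ ha =>
      have : t ^ j * a⁻¹ * t ^ (-j) = (t ^ j * a * t ^ (-j))⁻¹ := by group
      rw [this]
      exact ha.inv_right
  | one => simp
  | mul a b _ _ ha hb => exact ha.mul_left hb
  | inv a _ ha => exact ha.inv_left

/-- A homogeneous quasimorphism is additive on elements which have many commuting simultaneous
conjugates. -/
theorem qm_add_of_conj (hD : ∀ g h : G, |q (g * h) - q g - q h| ≤ D)
    (hq : ∀ (g : G) (n : ℤ), q (g ^ n) = n * q g) {x y u : G}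
    (hu : ∀ i : ℕ, 0 < i → ∀ a ∈ Subgroup.closure {x, y}, ∀ b ∈ Subgroup.closure {x, y},
      Commute a (u ^ i * b * (u ^ i)⁻¹)) : q (x * y) = q x + q y := by
  set K := Subgroup.closure {x, y} with hK
  -- products of conjugates
  let P : G → ℕ → G := fun z n => ((List.range n).map fun i => u ^ i * z * (u ^ i)⁻¹).prod
  have hP0 : ∀ z, P z 0 = 1 := fun z => by simp [P]
  have hPs : ∀ z n, P z (n + 1) = P z n * (u ^ n * z * (u ^ n)⁻¹) := fun z n => by
    simp [P, List.range_succ]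
  have hcomm : ∀ i j : ℕ, i ≠ j → ∀ a ∈ K, ∀ b ∈ K,
      Commute (u ^ i * a * (u ^ i)⁻¹) (u ^ j * b * (u ^ j)⁻¹) := by
    have aux : ∀ i k : ℕ, 0 < k → ∀ a ∈ K, ∀ b ∈ K,
        Commute (u ^ i * a * (u ^ i)⁻¹) (u ^ (i + k) * b * (u ^ (i + k))⁻¹) := by
      intro i k hk a ha b hb
      have h2 := commute_conj (hu k hk a ha b hb) (u ^ i)
      have h4 : u ^ i * (u ^ k * b * (u ^ k)⁻¹) * (u ^ i)⁻¹ =
          u ^ (i + k) * b * (u ^ (i + k))⁻¹ := by
        rw [pow_add]; group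
      rw [h4] at h2
      exact h2
    intro i j hij a ha b hb
    rcases lt_or_gt_of_ne hij with h | h
    · obtain ⟨k, rfl⟩ := Nat.exists_eq_add_of_lt h
      exact aux i (k + 1) (by omega) a ha b hb
    · obtain ⟨k, rfl⟩ := Nat.exists_eq_add_of_lt h
      exact (aux j (k + 1) (by omega) b hb a ha).symm
  have hPc : ∀ n j, n ≤ j → ∀ a ∈ K, ∀ b ∈ K, Commute (P a n) (u ^ j * b * (u ^ j)⁻¹) := by
    intro n
    induction n with
    | zero => intro j _ a _ b _; rw [hP0]; exact Commute.one_left _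
    | succ n ih =>
      intro j hj a ha b hb
      rw [hPs]
      exact (ih j (by omega) a ha b hb).mul_left (hcomm n j (by omega) a ha b hb)
  have hPq : ∀ n, ∀ a ∈ K, q (P a n) = n * q a := by
    intro n
    induction n with
    | zero => intro a _; rw [hP0, qm_one hq]; simp
    | succ n ih =>
      intro a ha
      rw [hPs, qm_comm hD hq (hPc n n le_rfl a ha a ha), ih a ha, qm_conj hD hq]
      push_cast; ring
  have hPm : ∀ n, ∀ a ∈ K, ∀ b ∈ K, P a n * P b n = P (a * b) n := by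
    intro n
    induction n with
    | zero => intro a _ b _; rw [hP0, hP0, hP0, one_mul]
    | succ n ih =>
      intro a ha b hb
      rw [hPs, hPs, hPs, ← ih a ha b hb]
      have h1 : (u ^ n * a * (u ^ n)⁻¹) * P b n = P b n * (u ^ n * a * (u ^ n)⁻¹) :=
        (hPc n n le_rfl b hb a ha).symm.eq
      have h2 : u ^ n * (a * b) * (u ^ n)⁻¹ = (u ^ n * a * (u ^ n)⁻¹) * (u ^ n * b * (u ^ n)⁻¹) := by
        group
      rw [h2]
      calc P a n * (u ^ n * a * (u ^ n)⁻¹) * (P b n * (u ^ n * b * (u ^ n)⁻¹))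
          = P a n * ((u ^ n * a * (u ^ n)⁻¹) * P b n) * (u ^ n * b * (u ^ n)⁻¹) := by group
        _ = P a n * (P b n * (u ^ n * a * (u ^ n)⁻¹)) * (u ^ n * b * (u ^ n)⁻¹) := by rw [h1]
        _ = P a n * P b n * ((u ^ n * a * (u ^ n)⁻¹) * (u ^ n * b * (u ^ n)⁻¹)) := by group
  have hx : x ∈ K := Subgroup.subset_closure (by simp)
  have hy : y ∈ K := Subgroup.subset_closure (by simp)
  have key : q (x * y) - q x - q y = 0 := by
    apply eq_zero_of_bound (D := D)
    intro n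
    have h1 := hD (P x n) (P y n)
    rw [hPm n x hx y hy, hPq n x hx, hPq n y hy, hPq n _ (K.mul_mem hx hy)] at h1
    have h2 : (n : ℝ) * (q (x * y) - q x - q y) = n * q (x * y) - n * q x - n * q y := by ring
    rw [h2]; exact h1
  linarith

theorem qm_add_Bm (hD : ∀ g h : G, |q (g * h) - q g - q h| ≤ D)
    (hq : ∀ (g : G) (n : ℤ), q (g ^ n) = n * q g) (F : Subgroup G) (t : G)
    (hF : ∀ n : ℕ, 0 < n → ∀ a ∈ F, ∀ b ∈ F, Commute a (t ^ n * b * (t ^ n)⁻¹))
    {m : ℕ} {x y : G} (hx : x ∈ Bm F t m) (hy : y ∈ Bm F t m) : q (x * y) = q x + q y := by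
  apply qm_add_of_conj hD hq (u := t ^ (2 * m + 1))
  intro i hi a ha b hb
  have hle : Subgroup.closure {x, y} ≤ Bm F t m := by
    rw [Subgroup.closure_le]
    rintro z (rfl | rfl)
    · exact hx
    · exact hy
  have h1 := Bm_commute F t hF m (((2 * m + 1) * i : ℕ) : ℤ) (by
    rw [Int.natAbs_natCast]
    nlinarith) (hle ha) (hle hb)
  rw [zpow_neg, zpow_natCast, pow_mul] at h1
  exact h1

/-- Main algebraic statement. -/
theorem qm_hom (F : Subgroup G) (t : G)
    (hgen : Subgroup.closure ((F : Set G) ∪ {t}) = ⊤)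
    (hF : ∀ n : ℕ, 0 < n → ∀ a ∈ F, ∀ b ∈ F, Commute a (t ^ n * b * (t ^ n)⁻¹))
    (hD : ∀ g h : G, |q (g * h) - q g - q h| ≤ D)
    (hq : ∀ (g : G) (n : ℤ), q (g ^ n) = n * q g) (x y : G) : q (x * y) = q x + q y := by
  -- normal form
  have hnf : ∀ x : G, ∃ m : ℕ, ∃ b ∈ Bm F t m, ∃ k : ℤ, x = b * t ^ k := by
    intro x
    have hx : x ∈ Subgroup.closure ((F : Set G) ∪ {t}) := by rw [hgen]; trivial
    induction hx using Subgroup.closure_induction with
    | mem z hz =>
      rcases hz with hz | hz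
      · exact ⟨0, z, F_le_Bm F t 0 hz, 0, by simp⟩
      · rw [Set.mem_singleton_iff] at hz
        subst hz
        exact ⟨0, 1, Subgroup.one_mem _, 1, by simp⟩
    | one => exact ⟨0, 1, Subgroup.one_mem _, 0, by simp⟩
    | mul a b _ _ ha hb =>
      obtain ⟨m, b₁, hb₁, k, rfl⟩ := ha
      obtain ⟨n, b₂, hb₂, l, rfl⟩ := hb
      refine ⟨max m (n + k.natAbs), b₁ * (t ^ k * b₂ * t ^ (-k)), ?_, k + l, ?_⟩
      · exact Subgroup.mul_mem _ (Bm_mono F t (le_max_left _ _) hb₁)
          (Bm_mono F t (le_max_right _ _) (Bm_conj F t n k hb₂))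
      · rw [zpow_add, zpow_neg]; group
    | inv a _ ha =>
      obtain ⟨m, b, hb, k, rfl⟩ := ha
      refine ⟨m + (-k).natAbs, t ^ (-k) * b⁻¹ * t ^ (-(-k)),
        Bm_conj F t m (-k) (Subgroup.inv_mem _ hb), -k, ?_⟩
      rw [mul_inv_rev, ← zpow_neg]; group
  -- powers of `b * t ^ k`
  have hpow : ∀ (m : ℕ) (b : G), b ∈ Bm F t m → ∀ (k : ℤ) (n : ℕ), ∃ b', ∃ m', b' ∈ Bm F t m' ∧
      q b' = n * q b ∧ (b * t ^ k) ^ n = b' * t ^ (n * k) := by
    intro m b hb k n
    induction n with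
    | zero => exact ⟨1, 0, Subgroup.one_mem _, by rw [qm_one hq]; simp, by simp⟩
    | succ n ih =>
      obtain ⟨b', m', hb', hqb, hp⟩ := ih
      refine ⟨b' * (t ^ (n * k) * b * t ^ (-(n * k))), max m' (m + (n * k).natAbs), ?_, ?_, ?_⟩
      · exact Subgroup.mul_mem _ (Bm_mono F t (le_max_left _ _) hb')
          (Bm_mono F t (le_max_right _ _) (Bm_conj F t m _ hb))
      · rw [qm_add_Bm hD hq F t hF (m := max m' (m + (n * k).natAbs))
          (Bm_mono F t (le_max_left _ _) hb')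
          (Bm_mono F t (le_max_right _ _) (Bm_conj F t m _ hb)), hqb, zpow_neg,
          qm_conj hD hq]
        push_cast; ring
      · rw [pow_succ, hp]
        push_cast
        rw [add_mul, one_mul, zpow_add, zpow_neg]; group
  have hbt : ∀ (m : ℕ) (b : G), b ∈ Bm F t m → ∀ k : ℤ, q (b * t ^ k) = q b + k * q t := by
    intro m b hb k
    have key : q (b * t ^ k) - q b - k * q t = 0 := by
      apply eq_zero_of_bound (D := D)
      intro n
      obtain ⟨b', m', hb', hqb, hp⟩ := hpow m b hb k n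
      have h1 := hD b' (t ^ (n * k))
      rw [← hp, qm_nat hq, hqb, hq] at h1
      push_cast at h1
      have h2 : (n : ℝ) * (q (b * t ^ k) - q b - k * q t) =
        n * q (b * t ^ k) - n * q b - n * k * q t := by ring
      rw [h2]; exact h1
    linarith
  obtain ⟨m, b₁, hb₁, k, rfl⟩ := hnf x
  obtain ⟨n, b₂, hb₂, l, rfl⟩ := hnf y
  have h1 : b₁ * t ^ k * (b₂ * t ^ l) = (b₁ * (t ^ k * b₂ * t ^ (-k))) * t ^ (k + l) := by
    rw [zpow_add, zpow_neg]; group
  have hm1 := Bm_mono F t (le_max_left m (n + k.natAbs)) hb₁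
  have hm2 := Bm_mono F t (le_max_right m (n + k.natAbs)) (Bm_conj F t n k hb₂)
  rw [h1, hbt _ _ (Subgroup.mul_mem _ hm1 hm2), qm_add_Bm hD hq F t hF hm1 hm2, zpow_neg,
    qm_conj hD hq, hbt m b₁ hb₁, hbt n b₂ hb₂]
  push_cast; ring

/-- The quotient space vanishes. -/
theorem rank_QTilde (F : Subgroup G) (t : G)
    (hgen : Subgroup.closure ((F : Set G) ∪ {t}) = ⊤)
    (hF : ∀ n : ℕ, 0 < n → ∀ a ∈ F, ∀ b ∈ F, Commute a (t ^ n * b * (t ^ n)⁻¹)) :
    dimQTilde G = 0 := by
  have h : (HomFun G).submoduleOf (Q G) = ⊤ := by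
    rw [eq_top_iff]
    rintro ⟨φ, ⟨D, hD⟩, hφ⟩ -
    intro x y
    exact qm_hom F t hgen hF hD hφ x y
  have : Subsingleton (QTilde G) := by
    rw [Submodule.Quotient.subsingleton_iff]
    exact h
  unfold dimQTilde
  exact rank_subsingleton' ℝ _

/-- A criterion for non-amenability: a group `K` maps to `G`, the kernel acts trivially on a
`K`-set `Ω`, and `Ω` is the disjoint union of `L`, `RL`, `RR` such that translates of `L` are
`L ∪ RL` and `RL ∪ RR`, and a translate of `RL` is `RR`. -/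
theorem not_amenable {G : Type} [Group G] {K : Type} [Group K] (p : K →* G) {Ω : Type}
    [MulAction K Ω] (hker : ∀ k, p k = 1 → ∀ z : Ω, k • z = z) (ω : Ω)
    (L RL RR : Set Ω) (h1 : Disjoint L RL) (h2 : Disjoint (L ∪ RL) RR)
    (h3 : L ∪ RL ∪ RR = Set.univ) (g s t : K)
    (hg : ∀ z, g • z ∈ L ↔ z ∈ L ∪ RL) (hs : ∀ z, s • z ∈ L ↔ z ∈ RL ∪ RR)
    (ht : ∀ z, t • z ∈ RL ↔ z ∈ RR) : ¬ IsAmenable G := by
  rintro ⟨m, hm0, hm1, hmu, hmi⟩
  -- an equivariant map from `G` to the image of `K`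
  let F : Subgroup G := p.range
  let π : G → G := fun x => x * (Quotient.out (Quotient.mk (QuotientGroup.rightRel F) x))⁻¹
  have hπF : ∀ x, π x ∈ F := by
    intro x
    have h := Quotient.mk_out (s := QuotientGroup.rightRel F) x
    exact (QuotientGroup.rightRel_apply (s := F)).1 h
  have hπe : ∀ f ∈ F, ∀ x, π (f * x) = f * π x := by
    intro f hf x
    have h : (Quotient.mk (QuotientGroup.rightRel F) (f * x)) =
        Quotient.mk (QuotientGroup.rightRel F) x := by
      apply Quotient.sound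
      refine (QuotientGroup.rightRel_apply (s := F)).2 ?_
      have : x * (f * x)⁻¹ = f⁻¹ := by group
      rw [this]
      exact F.inv_mem hf
    show f * x * (Quotient.out (Quotient.mk (QuotientGroup.rightRel F) (f * x)))⁻¹ = _
    rw [h]
    show _ = f * (x * _)
    rw [mul_assoc]
  have hlift : ∀ x, ∃ k : K, p k = π x := fun x => hπF x
  choose κ hκ using hlift
  let ρ : G → Ω := fun x => κ x • ω
  have hρ : ∀ f : K, ∀ x, ρ (p f * x) = f • ρ x := by
    intro f x
    show κ (p f * x) • ω = f • (κ x • ω)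
    rw [smul_smul]
    have h : p ((f * κ x)⁻¹ * κ (p f * x)) = 1 := by
      rw [map_mul, map_inv, map_mul, hκ, hκ, hπe _ ⟨f, rfl⟩]
      group
    have h' := hker _ h ω
    rw [mul_smul, inv_smul_eq_iff] at h'
    exact h'
  let μ : Set Ω → ℝ := fun A => m (ρ ⁻¹' A)
  have hμ : ∀ (f : K) (A B : Set Ω), (∀ z, f • z ∈ A ↔ z ∈ B) → μ A = μ B := by
    intro f A B hAB
    show m (ρ ⁻¹' A) = m (ρ ⁻¹' B)
    rw [← hmi (p f) (ρ ⁻¹' B)]
    congr 1
    ext x
    constructor
    · intro hx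
      refine ⟨(p f)⁻¹ * x, ?_, by simp⟩
      show ρ ((p f)⁻¹ * x) ∈ B
      rw [← hAB, ← hρ]
      simpa using hx
    · rintro ⟨y, hy, rfl⟩
      show ρ (p f * y) ∈ A
      rw [hρ, hAB]
      exact hy
  have hμu : ∀ A B : Set Ω, Disjoint A B → μ (A ∪ B) = μ A + μ B := by
    intro A B hAB
    exact hmu _ _ (Disjoint.preimage ρ hAB)
  have e1 := hμ g L (L ∪ RL) hg
  have e2 := hμ s L (RL ∪ RR) hs
  have e3 := hμ t RL RR ht
  have e4 : Disjoint RL RR := (Set.disjoint_union_left.1 h2).2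
  have e5 : μ Set.univ = 1 := hm1
  rw [← h3, hμu _ _ h2, hμu _ _ h1] at e5
  rw [hμu _ _ h1] at e1
  rw [hμu _ _ e4] at e2
  linarith

end

end Pool.Agent.W600.QM
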