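import Pool.Agent.H659R3.BigMCG.Defs

/-! The plane minus the ternary Cantor set and homeomorphisms of the plane preserving that set. -/

set_option autoImplicit false

open Topology unitInterval
open Pool.Agent.H659R3.BigMCG

namespace Pool.Agent.W600.QM

/-- The middle-thirds Cantor set, placed on the real axis of the complex plane. -/
def CC : Set ℂ := {z | z.im = 0 ∧ z.re ∈ cantorSet}

theorem mem_CC {x : ℝ} : (x : ℂ) ∈ CC ↔ x ∈ cantorSet := by simp [CC]

theorem CC_closed : IsClosed CC :=
  (isClosed_eq Complex.continuous_im continuous_const).inter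
    (isClosed_cantorSet.preimage Complex.continuous_re)

/-- The complement of the Cantor set in the plane. -/
abbrev SC : Type := (CCᶜ : Set ℂ)

theorem SC_open : IsOpen (CCᶜ : Set ℂ) := CC_closed.isOpen_compl

theorem two_mem : (2 : ℂ) ∈ (CCᶜ : Set ℂ) := by
  intro h
  have h1 := cantorSet_subset_unitInterval h.2
  simp at h1

theorem SC_isConnected : IsConnected (CCᶜ : Set ℂ) := by
  -- closed-up half planes
  have hup : IsPreconnected ({z : ℂ | 0 < z.im} ∪ {z : ℂ | z.im = 0 ∧ z.re ∉ cantorSet}) := by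
    have hc : IsPreconnected {z : ℂ | 0 < z.im} := (convex_halfSpace_im_gt 0).isPreconnected
    refine hc.subset_closure Set.subset_union_left ?_
    rintro z (hz | ⟨hz, -⟩)
    · exact subset_closure hz
    · rw [Complex.closure_setOfPred_lt_im]
      exact hz.ge
  have hdn : IsPreconnected ({z : ℂ | z.im < 0} ∪ {z : ℂ | z.im = 0 ∧ z.re ∉ cantorSet}) := by
    have hc : IsPreconnected {z : ℂ | z.im < 0} := (convex_halfSpace_im_lt 0).isPreconnected
    refine hc.subset_closure Set.subset_union_left ?_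
    rintro z (hz | ⟨hz, -⟩)
    · exact subset_closure hz
    · rw [Complex.closure_setOfPred_im_lt]
      exact hz.le
  have h2 : (2 : ℂ) ∈ {z : ℂ | z.im = 0 ∧ z.re ∉ cantorSet} := by
    refine ⟨by simp, fun h => ?_⟩
    have h1 := cantorSet_subset_unitInterval h
    simp at h1
  have hU := IsPreconnected.union (2 : ℂ) (Or.inr h2) (Or.inr h2) hup hdn
  have hE : (CCᶜ : Set ℂ) = ({z : ℂ | 0 < z.im} ∪ {z : ℂ | z.im = 0 ∧ z.re ∉ cantorSet}) ∪
      ({z : ℂ | z.im < 0} ∪ {z : ℂ | z.im = 0 ∧ z.re ∉ cantorSet}) := by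
    ext z
    simp only [CC, Set.mem_compl_iff, Set.mem_ofPred_eq, Set.mem_union, not_and]
    constructor
    · intro h
      rcases lt_trichotomy z.im 0 with h1 | h1 | h1
      · exact Or.inr (Or.inl h1)
      · exact Or.inl (Or.inr ⟨h1, h h1⟩)
      · exact Or.inl (Or.inl h1)
    · rintro ((h | h) | (h | h)) h0
      · exact absurd h0 h.ne'
      · exact h.2
      · exact absurd h0 h.ne
      · exact h.2
  rw [hE]
  exact ⟨⟨2, Or.inl (Or.inr h2)⟩, hU⟩

instance : ConnectedSpace SC := isConnected_iff_connectedSpace.1 SC_isConnected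

instance : Nonempty SC := ⟨⟨2, two_mem⟩⟩

/-- The inclusion of `SC` into the plane, as a chart. -/
noncomputable def incSC : OpenPartialHomeomorph SC ℂ :=
  SC_open.isOpenEmbedding_subtypeVal.toOpenPartialHomeomorph _

@[simp]
theorem incSC_apply (x : SC) : incSC x = (x : ℂ) := rfl

theorem incSC_source : incSC.source = Set.univ := rfl

theorem orientPresAt_id (z : ℂ) : OrientPresAt (fun w => w) z := by
  simpa using orientPresAt_add_const 0 z

theorem SC_t2 : T2Space SC := inferInstance

theorem SC_second : SecondCountableTopology SC := inferInstance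

theorem SC_connected : ConnectedSpace SC := inferInstance

theorem SC_cover (x : SC) : ∃ φ ∈ ({incSC} : Set (OpenPartialHomeomorph SC ℂ)), x ∈ φ.source :=
  ⟨incSC, rfl, by rw [incSC_source]; trivial⟩

theorem SC_oriented : ∀ φ ∈ ({incSC} : Set (OpenPartialHomeomorph SC ℂ)),
    ∀ ψ ∈ ({incSC} : Set (OpenPartialHomeomorph SC ℂ)), ∀ x ∈ φ.source, x ∈ ψ.source →
    OrientPresAt (ψ ∘ φ.symm) (φ x) := by
  rintro _ rfl _ rfl x hx hx'
  refine (orientPresAt_id (incSC x)).congr ?_
  have hn : incSC.target ∈ 𝓝 (incSC x) := incSC.open_target.mem_nhds (incSC.map_source hx)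
  filter_upwards [hn] with w hw
  exact incSC.right_inv hw

/-- The surface `SC`, oriented as an open subset of the plane. -/
noncomputable instance instSC : OrientedSurface SC where
  t2 := SC_t2
  secondCountable := SC_second
  connected := SC_connected
  charts := {incSC}
  cover := SC_cover
  oriented := SC_oriented

/-- `φ` preserves the winding numbers of all closed curves about all points. -/
def WindPres (φ : ℂ → ℂ) : Prop :=
  ∀ γ : ℝ → ℂ, Continuous γ → (∀ t, γ (t + 1) = γ t) → ∀ x : ℂ, (∀ t, γ t ≠ x) →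
    ∀ n : ℤ, HasWinding (fun t => γ t - x) n ↔ HasWinding (fun t => φ (γ t) - φ x) n

/-- The homeomorphisms of the plane which preserve the Cantor set and the winding numbers. -/
def PP : Subgroup (ℂ ≃ₜ ℂ) where
  carrier := {φ | (∀ z, φ z ∈ CC ↔ z ∈ CC) ∧ WindPres φ}
  one_mem' := ⟨fun _ => Iff.rfl, fun _ _ _ _ _ _ => Iff.rfl⟩
  mul_mem' := by
    rintro a b ⟨ha, ha'⟩ ⟨hb, hb'⟩
    refine ⟨fun z => (ha (b z)).trans (hb z), ?_⟩
    intro γ hγ hp x hx n
    rw [hb' γ hγ hp x hx n]
    exact ha' (fun t => b (γ t)) (b.continuous.comp hγ) (fun t => by simp only [hp]) (b x)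
      (fun t h => hx t (b.injective h)) n
  inv_mem' := by
    rintro a ⟨ha, ha'⟩
    have hs : ∀ z, a (a⁻¹ z) = z := fun z => a.apply_symm_apply z
    refine ⟨fun z => ?_, ?_⟩
    · rw [← ha, hs]
    · intro γ hγ hp x hx n
      have := ha' (fun t => a⁻¹ (γ t)) ((a⁻¹ : ℂ ≃ₜ ℂ).continuous.comp hγ)
        (fun t => by simp only [hp]) (a⁻¹ x) (fun t h => hx t ((a⁻¹ : ℂ ≃ₜ ℂ).injective h)) n
      simp only [hs] at this
      exact this.symm

/-- Isotopic to the identity in the plane implies winding preserving. -/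
theorem windPres_of_isotopy {φ : ℂ → ℂ} (G : I × ℂ → ℂ) (hG : Continuous G)
    (h0 : ∀ z, G (0, z) = z) (h1 : ∀ z, G (1, z) = φ z)
    (hinj : ∀ s z w, G (s, z) = G (s, w) → z = w) : WindPres φ := by
  intro γ hγ hp x hx n
  have hne : ∀ s t, G (s, γ t) - G (s, x) ≠ 0 := fun s t h =>
    hx t (hinj s _ _ (sub_eq_zero.1 h))
  constructor
  · intro h
    have := HasWinding.homotopy (K := fun p : I × ℝ => G (p.1, γ p.2) - G (p.1, x))
      (by fun_prop) (fun p => hne p.1 p.2) (fun s t => by simp only [hp]) (n := n)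
      (by simpa only [h0] using h) 1
    simpa only [h1] using this
  · intro h
    have := HasWinding.homotopy
      (K := fun p : I × ℝ => G (unitInterval.symm p.1, γ p.2) - G (unitInterval.symm p.1, x))
      (by fun_prop) (fun p => hne _ p.2) (fun s t => by simp only [hp]) (n := n)
      (by simpa only [unitInterval.symm_zero, h1] using h) 1
    simpa only [unitInterval.symm_one, h0] using this

/-- winding preserving maps preserve the orientation -/
theorem WindPres.orient {φ : ℂ → ℂ} (h : WindPres φ) (z : ℂ) : OrientPresAt φ z := by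
  refine ⟨1, one_pos, fun r hr _ => ?_⟩
  have h1 := (h (fun t => z + circ r t) (continuous_const.add (continuous_circ r))
    (fun t => by simp only [circ_add_one]) z (fun t ht => by
      have h2 : circ r t = 0 := by linear_combination ht
      have h3 := norm_circ hr.le t
      rw [h2, norm_zero] at h3
      exact hr.ne h3) 1).1 (by
        have := hasWinding_circ hr
        convert this using 2
        ring)
  exact h1

/-- restriction to the surface -/
noncomputable def res (φ : PP) : SC ≃ₜ SC where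
  toFun := fun z => ⟨(φ : ℂ ≃ₜ ℂ) z, fun h => z.2 ((φ.2.1 z).1 h)⟩
  invFun := fun z => ⟨((φ⁻¹ : PP) : ℂ ≃ₜ ℂ) z, fun h => z.2 (((φ⁻¹ : PP).2.1 z).1 h)⟩
  left_inv := fun z => Subtype.ext ((φ : ℂ ≃ₜ ℂ).symm_apply_apply z)
  right_inv := fun z => Subtype.ext ((φ : ℂ ≃ₜ ℂ).apply_symm_apply z)
  continuous_toFun := by fun_prop
  continuous_invFun := by fun_prop

theorem res_val (φ : PP) (z : SC) : ((res φ z : SC) : ℂ) = (φ : ℂ ≃ₜ ℂ) z := rfl

theorem res_mul (φ ψ : PP) : res (φ * ψ) = res φ * res ψ := by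
  ext z; rfl

theorem res_one : res 1 = 1 := by
  ext z; rfl

theorem res_inv (φ : PP) : res φ⁻¹ = (res φ)⁻¹ := by
  rw [eq_inv_iff_mul_eq_one, ← res_mul, inv_mul_cancel, res_one]

theorem res_orient (φ : PP) : PreservesOrientation (res φ) := by
  rintro _ rfl _ rfl x hx hx'
  refine (φ.2.2.orient (x : ℂ)).congr ?_
  have hn : incSC.target ∈ 𝓝 (incSC x) := incSC.open_target.mem_nhds (incSC.map_source hx)
  filter_upwards [hn] with w hw
  show ((res φ (incSC.symm w) : SC) : ℂ) = _
  rw [res_val]
  congr 1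
  exact incSC.right_inv hw

/-- restriction as a homomorphism -/
noncomputable def resPlus : PP →* HomeoPlus SC where
  toFun := fun φ => ⟨res φ, res_orient φ, by rw [← res_inv]; exact res_orient φ⁻¹⟩
  map_one' := Subtype.ext res_one
  map_mul' := fun a b => Subtype.ext (res_mul a b)

/-- The mapping class of a homeomorphism of the plane preserving the Cantor set. -/
noncomputable def toMapC : PP →* Map SC := toMap.comp resPlus

/-- Between two reals there is a point outside the Cantor set. -/
theorem exists_gap {a b : ℝ} (hab : a < b) : ∃ c, a < c ∧ c < b ∧ c ∉ cantorSet := by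
  by_contra hcon
  push Not at hcon
  have hT : TotallyDisconnectedSpace cantorSet := cantorSetHomeomorphNatToBool.symm.totallyDisconnectedSpace
  obtain ⟨u, hu1, hu2⟩ := exists_between hab
  obtain ⟨v, hv1, hv2⟩ := exists_between hu2
  have hmem : ∀ x : Set.Icc u v, (x : ℝ) ∈ cantorSet := fun x =>
    hcon x (hu1.trans_le x.2.1) (x.2.2.trans_lt hv2)
  have hc : Continuous (fun x : Set.Icc u v => (⟨x, hmem x⟩ : cantorSet)) := by fun_prop
  have hpre : IsPreconnected (Set.range (fun x : Set.Icc u v => (⟨x, hmem x⟩ : cantorSet))) := by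
    have : PreconnectedSpace (Set.Icc u v) := isPreconnected_iff_preconnectedSpace.1 isPreconnected_Icc
    exact isPreconnected_range hc
  have hs := hpre.subsingleton
  have := hs ⟨⟨u, le_rfl, hv1.le⟩, rfl⟩ ⟨⟨v, hv1.le, le_rfl⟩, rfl⟩
  have h3 : u = v := congrArg Subtype.val this
  exact hv1.ne h3

theorem circ_ne {r : ℝ} (hr : 0 < r) (t : ℝ) : circ r t ≠ 0 := by
  intro h; have := norm_circ hr.le t; rw [h, norm_zero] at this; exact hr.ne this

/-- winding numbers of circles: inside -/
theorem winding_in {c r : ℝ} (hr : 0 < r) {x : ℝ} (hx : |x - c| < r) :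
    HasWinding (fun t => (c + circ r t) - (x : ℂ)) 1 := by
  refine (hasWinding_circ hr).of_slit (continuous_circ r)
    ((continuous_const.add (continuous_circ r)).sub continuous_const)
    (fun t => by simp only [circ_add_one]) (fun t => ?_)
  have h0 := circ_ne hr t
  have h1 : (c + circ r t - (x : ℂ)) / circ r t = 1 + (-(((x - c : ℝ) : ℂ) / circ r t)) := by
    push_cast
    field_simp
    ring
  rw [h1]
  apply Complex.mem_slitPlane_of_norm_lt_one
  rw [norm_neg, norm_div, Complex.norm_real, norm_circ hr.le, div_lt_one hr, Real.norm_eq_abs]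
  exact hx

/-- winding numbers of circles: outside -/
theorem winding_out {c r : ℝ} (hr : 0 < r) {x : ℝ} (hx : r < |x - c|) :
    HasWinding (fun t => (c + circ r t) - (x : ℂ)) 0 := by
  have hcx : ((c - x : ℝ) : ℂ) ≠ 0 := by
    intro h
    have h2 : c - x = 0 := by exact_mod_cast h
    have h3 : x - c = 0 := by linarith
    rw [h3, abs_zero] at hx
    linarith
  refine hasWinding_zero_of_slit ((continuous_const.add (continuous_circ r)).sub continuous_const)
    (fun t => by simp only [circ_add_one]) ((c - x : ℝ) : ℂ) hcx (fun t => ?_)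
  have h1 : (c + circ r t - (x : ℂ)) / ((c - x : ℝ) : ℂ) = 1 + circ r t / ((c - x : ℝ) : ℂ) := by
    field_simp
    push_cast
    ring
  rw [h1]
  apply Complex.mem_slitPlane_of_norm_lt_one
  rw [norm_div, Complex.norm_real, norm_circ hr.le, Real.norm_eq_abs, abs_sub_comm,
    div_lt_one (hr.trans hx)]
  exact hx

/-- A homeomorphism in `PP` whose restriction is isotopic to the identity fixes the Cantor set. -/
theorem fix_of_isotopic (φ : PP) (h : IsotopicToId (res φ)) {κ : ℂ} (hκ : κ ∈ CC) :
    (φ : ℂ ≃ₜ ℂ) κ = κ := by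
  obtain ⟨Φ, hΦ, h0, h1⟩ := h
  -- the winding numbers around `κ'` and `φ κ'` agree
  have key : ∀ c r : ℝ, 0 < r → c + r ∉ cantorSet → c - r ∉ cantorSet → ∀ κ' ∈ CC, ∀ n : ℤ,
      HasWinding (fun t => (c + circ r t) - κ') n →
      HasWinding (fun t => (c + circ r t) - (φ : ℂ ≃ₜ ℂ) κ') n := by
    intro c r hr hc1 hc2 κ' hκ' n hn
    have hγ : ∀ t, (c : ℂ) + circ r t ∈ (CCᶜ : Set ℂ) := by
      rintro t ⟨him, hre⟩
      have h2 : (circ r t).im = 0 := by simpa using him
      have h3 := norm_circ hr.le t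
      have h4 : |(circ r t).re| = r := by
        rw [Complex.norm_def, Complex.normSq_apply, h2, mul_zero, add_zero,
          Real.sqrt_mul_self_eq_abs] at h3
        exact h3
      rw [Complex.add_re, Complex.ofReal_re] at hre
      rcases abs_eq hr.le |>.1 h4 with h5 | h5
      · rw [h5] at hre; exact hc1 hre
      · rw [h5] at hre; exact hc2 (by simpa [sub_eq_add_neg] using hre)
    have hφκ : (φ : ℂ ≃ₜ ℂ) κ' ∈ CC := (φ.2.1 κ').2 hκ'
    -- the isotopy
    let K : I × ℝ → ℂ := fun p =>
      (((Φ (⟨(c : ℂ) + circ r p.2, hγ p.2⟩, unitInterval.symm p.1)).1 : SC) : ℂ) -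
        (φ : ℂ ≃ₜ ℂ) κ'
    have hK : Continuous K := by
      have hcirc := continuous_circ r
      have : Continuous fun p : I × ℝ =>
          (((⟨(c : ℂ) + circ r p.2, hγ p.2⟩ : SC), unitInterval.symm p.1) : SC × I) := by
        refine Continuous.prodMk ?_ (by fun_prop)
        exact Continuous.subtype_mk (by fun_prop) _
      exact (continuous_subtype_val.comp (continuous_fst.comp (Φ.continuous.comp this))).sub
        continuous_const
    have hK0 : ∀ p, K p ≠ 0 := by
      intro p hp
      have h2 : (((Φ (⟨(c : ℂ) + circ r p.2, hγ p.2⟩, unitInterval.symm p.1)).1 : SC) : ℂ) =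
        (φ : ℂ ≃ₜ ℂ) κ' := sub_eq_zero.1 hp
      exact (Φ (⟨(c : ℂ) + circ r p.2, hγ p.2⟩, unitInterval.symm p.1)).1.2 (h2 ▸ hφκ)
    have hKp : ∀ s t, K (s, t + 1) = K (s, t) := by
      intro s t
      simp only [K, circ_add_one]
    have hstart : HasWinding (fun t => K (0, t)) n := by
      have h2 := (φ.2.2 (fun t => c + circ r t) (continuous_const.add (continuous_circ r))
        (fun t => by simp only [circ_add_one]) κ' (fun t ht => hγ t (ht ▸ hκ')) n).1 hn
      convert h2 using 2 with t
      simp only [K, unitInterval.symm_zero, h1]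
      rfl
    have hend := hstart.homotopy hK hK0 hKp 1
    convert hend using 2 with t
    simp only [K, unitInterval.symm_one, h0]
  -- separation
  have hφκ : (φ : ℂ ≃ₜ ℂ) κ ∈ CC := (φ.2.1 κ).2 hκ
  have e1 : ((κ.re : ℝ) : ℂ) = κ := Complex.ext (by simp) (by simp [hκ.1])
  have e2 : ((((φ : ℂ ≃ₜ ℂ) κ).re : ℝ) : ℂ) = (φ : ℂ ≃ₜ ℂ) κ :=
    Complex.ext (by simp) (by simp [hφκ.1])
  have i1 := cantorSet_subset_unitInterval hκ.2
  have i2 := cantorSet_subset_unitInterval hφκ.2
  rw [Set.mem_Icc] at i1 i2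
  by_contra hne
  have hne' : ((φ : ℂ ≃ₜ ℂ) κ).re ≠ κ.re := by
    intro h; apply hne; rw [← e2, h, e1]
  have hout : ∀ d : ℝ, d - 6 < 0 → (d - 3) - 3 ∉ cantorSet := by
    intro d hd hmem
    have := (cantorSet_subset_unitInterval hmem).1
    linarith
  rcases lt_or_gt_of_ne hne' with hlt | hlt
  · obtain ⟨d, hd1, hd2, hd3⟩ := exists_gap hlt
    have w1 := key (d - 3) 3 (by norm_num) (by simpa using hd3) (hout d (by linarith)) κ hκ 0 (by
      have := winding_out (c := d - 3) (r := 3) (x := κ.re) (by norm_num)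
        (by rw [lt_abs]; left; linarith)
      rwa [e1] at this)
    have w2 := winding_in (c := d - 3) (r := 3) (x := ((φ : ℂ ≃ₜ ℂ) κ).re) (by norm_num)
      (by rw [abs_lt]; constructor <;> linarith)
    rw [e2] at w2
    have := w1.unique w2
    omega
  · obtain ⟨d, hd1, hd2, hd3⟩ := exists_gap hlt
    have w1 := key (d - 3) 3 (by norm_num) (by simpa using hd3) (hout d (by linarith)) κ hκ 1 (by
      have := winding_in (c := d - 3) (r := 3) (x := κ.re) (by norm_num)
        (by rw [abs_lt]; constructor <;> linarith)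
      rwa [e1] at this)
    have w2 := winding_out (c := d - 3) (r := 3) (x := ((φ : ℂ ≃ₜ ℂ) κ).re) (by norm_num)
      (by rw [lt_abs]; left; linarith)
    rw [e2] at w2
    have := w1.unique w2
    omega

theorem fix_of_toMapC (φ : PP) (h : toMapC φ = 1) {κ : ℂ} (hκ : κ ∈ CC) :
    (φ : ℂ ≃ₜ ℂ) κ = κ := by
  have h1 : toMap (resPlus φ) = toMap 1 := by rw [map_one]; exact h
  have h2 := toMap_eq.1 h1.symm
  rw [inv_one, one_mul] at h2
  exact fix_of_isotopic φ h2 hκ

/-! ### Line maps -/

/-- The homeomorphism `(x, y) ↦ (e x, y)` of the plane. -/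
noncomputable def lineHomeo (e : ℝ ≃o ℝ) : ℂ ≃ₜ ℂ where
  toFun := fun z => ⟨e z.re, z.im⟩
  invFun := fun z => ⟨e.symm z.re, z.im⟩
  left_inv := fun z => by simp
  right_inv := fun z => by simp
  continuous_toFun := by
    have h1 : Continuous fun z : ℂ => e z.re := e.continuous.comp Complex.continuous_re
    exact Complex.equivRealProdCLM.symm.continuous.comp (h1.prodMk Complex.continuous_im)
  continuous_invFun := by
    have h1 : Continuous fun z : ℂ => e.symm z.re := e.symm.continuous.comp Complex.continuous_re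
    exact Complex.equivRealProdCLM.symm.continuous.comp (h1.prodMk Complex.continuous_im)

theorem lineHomeo_re (e : ℝ ≃o ℝ) (z : ℂ) : (lineHomeo e z).re = e z.re := rfl

theorem lineHomeo_im (e : ℝ ≃o ℝ) (z : ℂ) : (lineHomeo e z).im = z.im := rfl

theorem lineHomeo_wind (e : ℝ ≃o ℝ) : WindPres (lineHomeo e) := by
  refine windPres_of_isotopy (fun p : I × ℂ =>
    (((1 - (p.1 : ℝ)) * p.2.re + (p.1 : ℝ) * e p.2.re : ℝ) : ℂ) + (p.2.im : ℂ) * Complex.I) ?_
    ?_ ?_ ?_
  · have h1 : Continuous e := e.continuous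
    fun_prop
  · intro z
    apply Complex.ext <;> simp
  · intro z
    apply Complex.ext <;> simp [lineHomeo_re, lineHomeo_im]
  · intro s z w h
    have hre := congrArg Complex.re h
    have him := congrArg Complex.im h
    simp at hre him
    have hs0 := s.2.1
    have hs1 := s.2.2
    refine Complex.ext ?_ him
    by_contra hne
    rcases lt_or_gt_of_ne hne with hlt | hlt
    · have he := e.strictMono hlt
      rcases eq_or_lt_of_le hs0 with h2 | h2
      · rw [← h2] at hre; simp at hre; exact hne hre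
      · nlinarith
    · have he := e.strictMono hlt
      rcases eq_or_lt_of_le hs0 with h2 | h2
      · rw [← h2] at hre; simp at hre; exact hne hre
      · nlinarith

theorem lineHomeo_mem (e : ℝ ≃o ℝ) (he : ∀ x, e x ∈ cantorSet ↔ x ∈ cantorSet) :
    lineHomeo e ∈ PP :=
  ⟨fun z => by simp only [CC, Set.mem_ofPred_eq, lineHomeo_re, lineHomeo_im, he],
    lineHomeo_wind e⟩

/-! ### Half twists -/

/-- cut-off: `1` for `d ≤ r`, `0` for `d ≥ 2 r` -/
noncomputable def cut (r d : ℝ) : ℝ := max 0 (min 1 (2 - d / r))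

theorem cut_one {r d : ℝ} (hr : 0 < r) (hd : d ≤ r) : cut r d = 1 := by
  unfold cut
  have : d / r ≤ 1 := (div_le_one hr).2 hd
  rw [min_eq_left (by linarith), max_eq_right zero_le_one]

theorem cut_zero {r d : ℝ} (hr : 0 < r) (hd : 2 * r ≤ d) : cut r d = 0 := by
  unfold cut
  have : 2 ≤ d / r := by rwa [le_div_iff₀ hr]
  rw [max_eq_left]
  exact (min_le_right _ _).trans (by linarith)

/-- The twist by the angle `a π` about `c`, supported in the disc of radius `2 r`. -/
noncomputable def tw (c r a : ℝ) (z : ℂ) : ℂ :=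
  c + (z - c) * Complex.exp (((a * Real.pi * cut r ‖z - c‖ : ℝ) : ℂ) * Complex.I)

theorem tw_norm (c r a : ℝ) (z : ℂ) : ‖tw c r a z - c‖ = ‖z - c‖ := by
  unfold tw
  rw [add_sub_cancel_left, norm_mul, Complex.norm_exp_ofReal_mul_I, mul_one]

theorem tw_tw (c r a b : ℝ) (z : ℂ) : tw c r a (tw c r b z) = tw c r (a + b) z := by
  have h := tw_norm c r b z
  show c + (tw c r b z - c) *
    Complex.exp (((a * Real.pi * cut r ‖tw c r b z - c‖ : ℝ) : ℂ) * Complex.I) = _
  rw [h]
  unfold tw
  rw [add_sub_cancel_left, mul_assoc, ← Complex.exp_add]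
  congr 3
  push_cast
  ring

theorem tw_zero (c r : ℝ) (z : ℂ) : tw c r 0 z = z := by
  unfold tw; simp

theorem tw_cont (c r : ℝ) : Continuous (fun p : ℝ × ℂ => tw c r p.1 p.2) := by
  unfold tw cut
  fun_prop

/-- The half twist as a homeomorphism. -/
noncomputable def twHomeo (c r : ℝ) : ℂ ≃ₜ ℂ where
  toFun := tw c r 1
  invFun := tw c r (-1)
  left_inv := fun z => by rw [tw_tw]; norm_num [tw_zero]
  right_inv := fun z => by rw [tw_tw]; norm_num [tw_zero]
  continuous_toFun := (tw_cont c r).comp (by fun_prop : Continuous fun z : ℂ => ((1 : ℝ), z))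
  continuous_invFun := (tw_cont c r).comp (by fun_prop : Continuous fun z : ℂ => ((-1 : ℝ), z))

theorem twHomeo_apply (c r : ℝ) (z : ℂ) : twHomeo c r z = tw c r 1 z := rfl

theorem tw_wind (c r : ℝ) : WindPres (twHomeo c r) := by
  refine windPres_of_isotopy (fun p : I × ℂ => tw c r (p.1 : ℝ) p.2) ?_ ?_ ?_ ?_
  · exact (tw_cont c r).comp (by fun_prop : Continuous fun p : I × ℂ => ((p.1 : ℝ), p.2))
  · intro z; simp [tw_zero]
  · intro z; simp [twHomeo_apply]
  · intro s z w h
    have h2 := congrArg (tw c r (-(s : ℝ))) h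
    simp only [tw_tw] at h2
    simpa [tw_zero] using h2

/-- near the centre the half twist is the point reflection -/
theorem tw_inner {c r : ℝ} (hr : 0 < r) {a : ℝ} (ha : a = 1 ∨ a = -1) {x : ℝ} (hx : |x - c| ≤ r) :
    tw c r a x = ((2 * c - x : ℝ) : ℂ) := by
  unfold tw
  have h1 : ‖(x : ℂ) - c‖ = |x - c| := by
    rw [← Complex.ofReal_sub, Complex.norm_real, Real.norm_eq_abs]
  rw [h1, cut_one hr hx]
  rcases ha with rfl | rfl
  · rw [one_mul, mul_one, Complex.exp_pi_mul_I]
    push_cast; ring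
  · have h2 : Complex.exp (((-1 * Real.pi * 1 : ℝ) : ℂ) * Complex.I) = -1 := by
      have : (((-1 * Real.pi * 1 : ℝ) : ℂ) * Complex.I) = -(Real.pi * Complex.I) := by
        push_cast; ring
      rw [this, Complex.exp_neg, Complex.exp_pi_mul_I]
      norm_num
    rw [h2]
    push_cast; ring

/-- far away the half twist is the identity -/
theorem tw_outer {c r : ℝ} (hr : 0 < r) (a : ℝ) {z : ℂ} (hz : 2 * r ≤ ‖z - c‖) :
    tw c r a z = z := by
  unfold tw
  rw [cut_zero hr hz]
  simp

theorem twHomeo_mem {c r : ℝ} (hr : 0 < r)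
    (h : ∀ x ∈ cantorSet, |x - c| ≤ 2 * r → |x - c| ≤ r ∧ 2 * c - x ∈ cantorSet) :
    twHomeo c r ∈ PP := by
  have aux : ∀ a : ℝ, (a = 1 ∨ a = -1) → ∀ z ∈ CC, tw c r a z ∈ CC := by
    intro a ha z hz
    have e1 : ((z.re : ℝ) : ℂ) = z := Complex.ext (by simp) (by simp [hz.1])
    rcases le_or_gt |z.re - c| (2 * r) with h1 | h1
    · obtain ⟨h2, h3⟩ := h z.re hz.2 h1
      have := tw_inner hr ha h2
      rw [e1] at this
      rw [this]
      exact mem_CC.2 h3
    · rw [tw_outer hr a]
      · exact hz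
      · rw [← e1, ← Complex.ofReal_sub, Complex.norm_real, Real.norm_eq_abs]
        exact h1.le
  refine ⟨fun z => ⟨fun hz => ?_, fun hz => aux 1 (Or.inl rfl) z hz⟩, tw_wind c r⟩
  have := aux (-1) (Or.inr rfl) _ hz
  rw [twHomeo_apply, tw_tw] at this
  norm_num [tw_zero] at this
  exact this

end Pool.Agent.W600.QM
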